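import Pool.Agent.H62.ImpEqDefs
import Pool.Agent.H30.NBb

set_option autoImplicit false

namespace Pool.Agent.Results.MP_86fe4b_lc.Undec
open H62.ImpEq Pool.Agent.H30.NB Tm

variable {X : Type}

lemma rc_assoc (a b c : Set (X × X)) : rc (rc a b) c = rc a (rc b c) :=
  Set.ext fun _ => ⟨fun ⟨y, ⟨x, h1, h2⟩, h3⟩ => ⟨x, h1, y, h2, h3⟩, fun ⟨x, h1, y, h2, h3⟩ => ⟨y, ⟨x, h1, h2⟩, h3⟩⟩

def un (s t : Tm) : Tm := imp (imp s t) t
def top : Tm := imp (var 0) (var 0)
def w0 : List (Tm × Tm) → Tm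
  | [] => var 0
  | p :: L => un (un (imp (imp p.1 p.2) (var 0)) (imp (imp p.2 p.1) (var 0))) (w0 L)
def Z (L : List (Tm × Tm)) : Tm :=
  un (un (w0 L) (comp top (w0 L))) (un (comp (w0 L) top) (comp top (comp (w0 L) top)))

section
variable {T : Set (X × X)} (hT : ∀ x y z, (x, y) ∈ T → (y, z) ∈ T → (x, z) ∈ T)
  {v : ℕ → Set (X × X)} (hv : ∀ i, v i ⊆ T)
include hT hv

lemma eval_sub (s : Tm) : eval T v s ⊆ T := by
  induction s with
  | var i => exact hv i
  | imp s t _ ih => exact Set.union_subset Set.sdiff_subset ih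
  | comp s t ih1 ih2 => exact fun _ ⟨_, a, b⟩ => hT _ _ _ (ih1 a) (ih2 b)

lemma eval_un (s t : Tm) : eval T v (un s t) = eval T v s ∪ eval T v t := by
  ext p
  have := @eval_sub _ _ hT _ hv s p
  simp only [un, eval, Set.mem_union, Set.mem_sdiff]
  tauto

omit hT in
lemma eval_top : eval T v top = T := Set.sdiff_union_of_subset (hv 0)

lemma mem_w0 (L : List (Tm × Tm)) (p : X × X) :
    p ∈ eval T v (w0 L) ↔ p ∈ v 0 ∨ ∃ q ∈ L, ¬(p ∈ eval T v q.1 ↔ p ∈ eval T v q.2) := by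
  induction L with
  | nil => simp [w0, eval]
  | cons q L ih =>
    have := @eval_sub _ _ hT _ hv q.1 p
    have := @eval_sub _ _ hT _ hv q.2 p
    simp only [w0, eval_un hT hv, eval, Set.mem_union, Set.mem_sdiff, ih, List.mem_cons, exists_eq_or_imp]
    have := @hv 0 p
    generalize (∃ q ∈ L, ¬(p ∈ eval T v q.1 ↔ p ∈ eval T v q.2)) = A
    grind

def cut (T : Set (X × X)) (p : X × X) : Set (X × X) :=
  {q | q ∈ T ∧ (q.1 = p.1 ∨ (p.1, q.1) ∈ T) ∧ (q.2 = p.2 ∨ (q.2, p.2) ∈ T)}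

lemma eval_cut (p : X × X) (s : Tm) : eval (cut T p) (fun i => v i ∩ cut T p) s = eval T v s ∩ cut T p := by
  induction s with
  | var i => rfl
  | imp s t ih1 ih2 =>
    ext q
    have : q ∈ cut T p → q ∈ T := And.left
    simp only [eval, ih1, ih2, Set.mem_union, Set.mem_sdiff, Set.mem_inter_iff]
    tauto
  | comp s t ih1 ih2 =>
    ext q
    have h1 := fun y => @eval_sub _ _ hT _ hv s (q.1, y)
    have h2 := fun y => @eval_sub _ _ hT _ hv t (y, q.2)
    simp only [eval, ih1, ih2, rc, Set.mem_inter_iff, Set.mem_ofPred_eq]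
    simp only [cut, Set.mem_ofPred_eq]
    grind

end

lemma valid_of (L : List (Tm × Tm)) (s t : Tm)
    (h : ∀ (X : Type) (T : Set (X × X)) (v : ℕ → Set (X × X)), (∀ q ∈ L, eval T v q.1 = eval T v q.2) →
      eval T v s = eval T v t) : Valid (un s (Z L)) (un t (Z L)) := by
  intro X T hT v hv
  ext p
  rw [eval_un hT hv, eval_un hT hv]
  by_cases hp : p ∈ eval T v (Z L)
  · simp [hp]
  by_cases hpT : p ∈ T
  swap
  · simp [hp, mt (@eval_sub _ _ hT _ hv s p) hpT, mt (@eval_sub _ _ hT _ hv t p) hpT]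
  have := h X (cut T p) (fun i => v i ∩ cut T p) fun q hq => by
    rw [eval_cut hT hv, eval_cut hT hv]
    ext r
    refine and_congr_left fun hr => by_contra fun hc => hp ?_
    have := (mem_w0 hT hv L r).mpr (Or.inr ⟨q, hq, hc⟩)
    simp only [Z, eval_un hT hv, eval, eval_top hv, Set.mem_union]
    obtain ⟨x, y⟩ := r
    obtain ⟨-, rfl | a, rfl | b⟩ := hr
    exacts [.inl (.inl this), .inr (.inl ⟨_, this, b⟩), .inl (.inr ⟨_, a, this⟩), .inr (.inr ⟨_, a, _, this, b⟩)]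
  rw [eval_cut hT hv, eval_cut hT hv] at this
  have hc : p ∈ cut T p := ⟨hpT, .inl rfl, .inl rfl⟩
  simpa [hp, hc] using Set.ext_iff.mp this p

lemma of_valid {L : List (Tm × Tm)} {s t : Tm} (h : Valid (un s (Z L)) (un t (Z L))) (v : ℕ → Set (X × X))
    (h0 : v 0 = ∅) (hL : ∀ q ∈ L, eval Set.univ v q.1 = eval Set.univ v q.2) :
    eval Set.univ v s = eval Set.univ v t := by
  have hT : ∀ x y z : X, (x, y) ∈ Set.univ → (y, z) ∈ Set.univ → (x, z) ∈ Set.univ := fun _ _ _ _ _ => trivial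
  have hv : ∀ i, v i ⊆ Set.univ := fun _ => Set.subset_univ _
  have e : eval Set.univ v (w0 L) = ∅ := Set.eq_empty_of_forall_notMem fun p hp => by
    rcases (mem_w0 hT hv L p).mp hp with a | ⟨q, a, b⟩
    · exact (h0 ▸ a).elim
    · exact b (by rw [hL q a])
  simpa [Z, eval_un hT hv, eval, e, rc] using h X _ hT v hv

variable {I : Type} (ι : I → ℕ)

def lt (l : I × Bool) : Tm := var (2 * ι l.1 + if l.2 then 2 else 3)
def wt (L : List (I × Bool)) : Tm := L.foldr (fun l s => comp (lt ι l) s) (var 1)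
def pw (s : Tm) (m : ℕ) : Tm := (comp s)^[m] (var 1)
def cj (x t : I) (b : Bool) (m : ℕ) : Tm := comp (comp (pw (lt ι (x, true)) m) (lt ι (t, b))) (pw (lt ι (x, false)) m)
def W (k x t : I) (m : ℕ) : Tm :=
  comp (comp (comp (lt ι (k, true)) (cj ι x t true m)) (lt ι (k, false))) (cj ι x t false m)

section
variable {G : Type} [Group G] (γ : FreeGroup I →* G) (ψ : G → Set (X × X))
  (hψ : ∀ a b, ψ (a * b) = rc (ψ a) (ψ b)) {T : Set (X × X)} {v : ℕ → Set (X × X)} (h1 : v 1 = ψ 1)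
  (h2 : ∀ g, eval T v (lt ι (g, true)) = ψ (γ (.of g))) (h3 : ∀ g, eval T v (lt ι (g, false)) = ψ (γ (.of g))⁻¹)
include hψ h1 h2 h3

lemma eval_wt (L : List (I × Bool)) : eval T v (wt ι L) = ψ (γ (.mk L)) := by
  induction L with
  | nil => exact h1.trans (congrArg ψ (map_one γ).symm)
  | cons l L ih =>
    obtain ⟨g, _ | _⟩ := l
    · rw [show FreeGroup.mk ((g, false) :: L) = (FreeGroup.of g)⁻¹ * .mk L from rfl, map_mul, map_inv, hψ,
        ← ih, ← h3]; rfl
    · rw [show FreeGroup.mk ((g, true) :: L) = FreeGroup.of g * .mk L from rfl, map_mul, hψ, ← ih, ← h2]; rfl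

lemma eval_W (k x t : I) (m : ℕ) : eval T v (W ι k x t m) = ψ (γ (tw (.of k) (.of x) (.of t) m)) := by
  have hp : ∀ s a, eval T v s = ψ a → eval T v (pw s m) = ψ (a ^ m) := by
    intro s a h
    induction m with
    | zero => simpa [pw, eval] using h1
    | succ m ih => rw [pw, Function.iterate_succ_apply', eval, ← pw, ih, h, ← hψ, pow_succ']
  simp only [W, cj, eval, hp _ _ (h2 x), hp _ _ (h3 x), h2, h3, ← hψ, tw, cm, map_mul, map_inv, map_pow]
  congr 1
  group

end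

def Pr (f : ℕ → Tm) : Prop := Primrec fun n => enc (f n)

lemma Pr.const (s : Tm) : Pr fun _ => s := Primrec.const _
lemma Pr.imp {f g : ℕ → Tm} (hf : Pr f) (hg : Pr g) : Pr fun n => imp (f n) (g n) :=
  Primrec.nat_add.comp (Primrec.nat_mul.comp (.const 3) (Primrec₂.natPair.comp hf hg)) (.const 1)
lemma Pr.comp {f g : ℕ → Tm} (hf : Pr f) (hg : Pr g) : Pr fun n => comp (f n) (g n) :=
  Primrec.nat_add.comp (Primrec.nat_mul.comp (.const 3) (Primrec₂.natPair.comp hf hg)) (.const 2)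
lemma Pr.pw (s : Tm) : Pr fun n => pw s (2 ^ n) := by
  have e : ∀ m, enc (Undec.pw s m) = (fun c => 3 * Nat.pair (enc s) c + 2)^[m] 3 := by
    intro m
    induction m with
    | zero => rfl
    | succ m ih => rw [Function.iterate_succ_apply', ← ih, Undec.pw, Function.iterate_succ_apply']; rfl
  refine (Primrec.nat_iterate (h := fun _ c => 3 * Nat.pair (enc s) c + 2)
    ((Primrec₂.unpaired'.mp Nat.Primrec.pow).comp (.const 2) .id) (.const 3)
    (Primrec.nat_add.comp (Primrec.nat_mul.comp (.const 3) (Primrec₂.natPair.comp (.const _) .snd))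
      (.const 2)).to₂).of_eq fun n => (e _).symm

theorem result : ¬∃ f : ℕ → Bool, Computable f ∧
    ∀ s t : Tm, f (Nat.pair (enc s) (enc t)) = true ↔ Valid s t := by
  classical
  rintro ⟨f, hf, H⟩
  obtain ⟨I, _, R, k, x, t, K, hR, hK, hc, Γ, _, γ, hγ, hs⟩ := novikov_boone
  obtain ⟨ι, hι⟩ := exists_injective_nat I
  let S : Set (Tm × Tm) := {(comp (var 1) (var 1), var 1)} ∪ (⋃ l : I × Bool, {(comp (var 1) (lt ι l), lt ι l),
    (comp (lt ι l) (var 1), lt ι l), (comp (lt ι l) (lt ι (l.1, !l.2)), var 1)}) ∪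
    (fun r => (wt ι r.toWord, var 1)) '' R
  have hS : S.Finite := ((Set.finite_singleton _).union (Set.finite_iUnion fun _ => Set.toFinite _)).union
    (hR.image _)
  let L := hS.toFinset.toList
  have hL : ∀ q, q ∈ L ↔ q ∈ S := fun q => by simp only [L, Finset.mem_toList, Set.Finite.mem_toFinset]
  have key : ∀ n, Valid (un (W ι k x t (2 ^ n)) (Z L)) (un (var 1) (Z L)) ↔ K n := by
    refine fun n => ⟨fun h => hs n ?_, fun h => valid_of _ _ _ fun X T v hv => ?_⟩
    · let ψ : Γ → Set (Γ × Γ) := fun a => {p | p.2 = p.1 * a}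
      have hψ : ∀ a b, ψ (a * b) = rc (ψ a) (ψ b) := fun a b => by ext; simp [ψ, rc, mul_assoc]
      let v : ℕ → Set (Γ × Γ) := fun i => {p | (i = 1 ∧ p ∈ ψ 1) ∨ (∃ g, i = 2 * ι g + 2 ∧ p ∈ ψ (γ (.of g))) ∨
        ∃ g, i = 2 * ι g + 3 ∧ p ∈ ψ (γ (.of g))⁻¹}
      have h1 : v 1 = ψ 1 := by ext; simp [v]
      have h2 : ∀ g, eval Set.univ v (lt ι (g, true)) = ψ (γ (.of g)) := fun g => by
        ext; simp [v, lt, eval, hι.eq_iff]; omega
      have h3 : ∀ g, eval Set.univ v (lt ι (g, false)) = ψ (γ (.of g))⁻¹ := fun g => by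
        ext p
        have : ∀ g', 2 * ι g + 3 ≠ 2 * ι g' + 2 := fun _ => by omega
        simp [v, lt, eval, hι.eq_iff, this]
      have := of_valid h v (by ext; simp [v]) fun q hq => by
        rcases (hL q).mp hq with (rfl | hq) | ⟨r, hr, rfl⟩
        · simp [eval, h1, ← hψ]
        · obtain ⟨⟨g, _ | _⟩, rfl | rfl | rfl⟩ := Set.mem_iUnion.mp hq <;> simp [eval, h1, h2, h3, ← hψ]
        · rw [eval_wt ι γ ψ hψ h1 h2 h3, FreeGroup.mk_toWord, hγ r hr]; exact h1.symm
      rw [eval_W ι γ ψ hψ h1 h2 h3, eval, h1] at this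
      simpa [ψ] using (Set.ext_iff.mp this (1, 1)).mpr (by simp [ψ]) |>.symm
    · have hv' : ∀ q ∈ S, eval T v q.1 = eval T v q.2 := fun q hq => hv q ((hL q).mpr hq)
      have a0 : rc (v 1) (v 1) = v 1 := hv' _ (.inl (.inl rfl))
      have a1 := fun l => hv' _ (.inl (.inr (Set.mem_iUnion.mpr ⟨l, .inl rfl⟩)))
      have a2 := fun l => hv' _ (.inl (.inr (Set.mem_iUnion.mpr ⟨l, .inr (.inl rfl)⟩)))
      have a3 := fun l => hv' _ (.inl (.inr (Set.mem_iUnion.mpr ⟨l, .inr (.inr rfl)⟩)))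
      let M := {a : Set (X × X) // rc (v 1) a = a ∧ rc a (v 1) = a}
      let _ : Monoid M :=
        { mul := fun a b => ⟨rc a.1 b.1, by rw [← rc_assoc, a.2.1], by rw [rc_assoc, b.2.2]⟩
          one := ⟨v 1, a0, a0⟩
          mul_assoc := fun _ _ _ => Subtype.ext (rc_assoc _ _ _)
          one_mul := fun a => Subtype.ext a.2.1
          mul_one := fun a => Subtype.ext a.2.2 }
      let φ : FreeGroup I →* Mˣ := FreeGroup.lift fun g => ⟨⟨_, a1 (g, true), a2 (g, true)⟩,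
        ⟨_, a1 (g, false), a2 (g, false)⟩, Subtype.ext (a3 (g, true)), Subtype.ext (a3 (g, false))⟩
      have b2 : ∀ g, eval T v (lt ι (g, true)) = (φ (.of g)).1.1 := fun g => by simp [φ]
      have b3 : ∀ g, eval T v (lt ι (g, false)) = ((φ (.of g))⁻¹).1.1 := fun g => by simp [φ]
      have : Subgroup.normalClosure R ≤ φ.ker := Subgroup.normalClosure_le_normal fun r hr => by
        have := hv' _ (.inr ⟨r, hr, rfl⟩)
        rw [eval_wt ι φ (fun a => a.1.1) (fun _ _ => rfl) rfl b2 b3, FreeGroup.mk_toWord] at this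
        exact Units.ext (Subtype.ext this)
      rw [eval_W ι φ (fun a => a.1.1) (fun _ _ => rfl) rfl b2 b3, this (hc n h)]
      rfl
  have cj : ∀ b, Pr fun n => cj ι x t b (2 ^ n) := fun b => ((Pr.pw _).comp (.const _)).comp (.pw _)
  have hW : Pr fun n => un (W ι k x t (2 ^ n)) (Z L) :=
    ((((((Pr.const _).comp (cj _)).comp (.const _)).comp (cj _)).imp (.const _)).imp (.const _))
  refine hK (ComputablePred.computable_iff.mpr ⟨_, hf.comp (Primrec₂.natPair.comp hW
    (.const (enc (un (var 1) (Z L))))).to_comp, funext fun n => propext ((H _ _).trans (key n)).symm⟩)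

end Pool.Agent.Results.MP_86fe4b_lc.Undec
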